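import Pool.Agent.Y141.OG.Cl3

set_option autoImplicit false

namespace Pool.Agent.Y141.OG

open Filter Metric Set Topology Pool.Agent.W603.BP Pool.Agent.Y192.OG

theorem t_cl : St_ring → St_ord → St_cnt → St_jen → St_ht → St_wr → St_cl := by
  intro hr ho hcn hj hh hw N c F r Φ w k m a e Z hF hk hc he hli ha hZ0 hZf hZ i j hi hj'
  have hdom := dom_of hr c
  set W := c.wrd (fun i : Fin k => e i.succ) with hWdef
  have hW : W ≠ 0 := (hw N c F r k (fun i => e i.succ)).1 hli
  obtain ⟨CW, hCW⟩ := hj N c W hW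
  obtain ⟨CF, hCF⟩ := hj N c F hF
  have hCm := fun l => jen_mon hr ho hj r (m l)
  choose Cm hCm using hCm
  obtain ⟨C0, hC0, hcirc⟩ := circ hdom hw r Φ w k e he _ _ hc
  set C' : ℝ := |Real.log C0| + |CW| + ∑ l, (|Cm l| + a l * |CF|) + (1 / 2) * (|Cm i| + |Cm j|)
    with hC'
  have hC'0 : 0 ≤ C' := by positivity
  -- the estimate for one circle
  have key : ∀ n, c.ht (m i - m j) (r.s n) ≤
      2 * (k * w * ∑ φ ∈ Φ, c.ht φ (r.s n)
        + (k * w + k ^ 2) * (c.cnt (fun z => (c.bad z : ℤ)) (r.s n)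
          + c.cnt (fun z => (Z z : ℤ)) (r.s n)))
      + 2 * (k * w + k ^ 2) * Real.log (1 / r.e n) + 2 * C' * (1 + Real.log (r.s n)) := by
    intro n
    set R := r.s n with hR
    have hR2 := r.hs n
    rw [← hR] at hR2
    have hr0 := c.hr0
    have hR1 : 1 ≤ R := by linarith
    have hlogR : 0 ≤ Real.log R := Real.log_nonneg hR1
    obtain ⟨-, -, -, -, -, hil, hif⟩ := (hh N c).1 R hR2
    have he0 := (r.he n).1
    -- means
    have qlam : ∀ m', Qm R (fun z => c.lam z m') (Real.circleAverage (fun z => c.lam z m') 0 R) :=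
      fun m' => ⟨hil m', rfl⟩
    have qabs : ∀ m', Qm R (fun z => |c.lam z m'|)
        (Real.circleAverage (fun z => |c.lam z m'|) 0 R) := fun m' => Qm.abs (hil m')
    have qF : Qm R (fun z => Real.log ‖c.val F z‖)
        (Real.circleAverage (fun z => Real.log ‖c.val F z‖) 0 R) := ⟨hif F, rfl⟩
    have qG := ((((Qm.sum (R := R) Finset.univ (fun l _ => (qlam (m l)).add (qF.smul (a l : ℝ)))).add
      (((qlam (m i)).add (qlam (m j))).smul (-(1 / 2)))).add ((qabs (m i - m j)).smul (-(1 / 2)))).add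
      ((Qm.sum (R := R) Φ (fun φ _ => qabs φ)).smul ((k : ℝ) * w))).add
      (Qm.const (R := R) (Real.log C0 + (k * w + k ^ 2) * Real.log (1 / r.e n)))
    have h1 := mean_le hr hh r hW n qG (by
      intro z hz hne
      have hmax : ∀ b, Real.log ‖c.val W z‖ ≤ Real.log C0 +
          (∑ l, (c.lam z (m l) + a l * Real.log ‖c.val F z‖) -
            (c.lam z (m b) + a b * Real.log ‖c.val F z‖) + k * w * ∑ φ ∈ Φ, |c.lam z φ|) +
          (k * w + k ^ 2) * Real.log (1 / r.e n) := by
        intro b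
        have h2 := hcirc n z hz b
        have h3 := Real.log_le_log (norm_pos_iff.mpr hne) h2
        rw [Real.log_mul (by positivity) (by positivity), Real.log_mul hC0.ne' (Real.exp_ne_zero _),
          Real.log_exp, Real.log_pow] at h3
        push_cast at h3
        exact h3
      have h4 := hmax i
      have h5 := hmax j
      rw [hi] at h4
      rw [hj'] at h5
      rw [lam_sub]
      rcases abs_cases (c.lam z (m i) - c.lam z (m j)) with h | h
      · rw [h.1]; push_cast at h4 h5 ⊢; linarith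
      · rw [h.1]; push_cast at h4 h5 ⊢; linarith)
    -- divisors
    have pdel : ∀ m', Pc c R (fun z => (c.del z m' : ℤ)) (c.cnt (fun z => (c.del z m' : ℤ)) R) :=
      fun m' => ⟨(ho N c).2.2.2.2.2.2.2 m', rfl⟩
    have pabs : ∀ m', Pc c R (fun z => (|c.del z m'| : ℤ)) (c.cnt (fun z => (|c.del z m'| : ℤ)) R) :=
      fun m' => ⟨(hcn N c).2.2.2 _ _ ((ho N c).2.2.2.2.2.2.2 m') (fun z _ => by
        push_cast; rw [abs_abs]), rfl⟩
    have pF : Pc c R (fun z => ((c.ord z F).untop₀ : ℤ)) (c.cnt (fun z => ((c.ord z F).untop₀ : ℤ)) R) :=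
      ⟨(ho N c).2.2.2.2.2.1 F hF, rfl⟩
    have pbad : Pc c R (fun z => (c.bad z : ℤ)) (c.cnt (fun z => (c.bad z : ℤ)) R) :=
      ⟨(ho N c).2.2.2.2.2.2.1, rfl⟩
    have pZ : Pc c R (fun z => (Z z : ℤ)) (c.cnt (fun z => (Z z : ℤ)) R) := ⟨hZf, rfl⟩
    have pG := (((((Pc.sum hcn (R := R) Finset.univ
      (fun l _ => (pdel (m l)).add hcn (pF.smul hcn (a l : ℝ)))).add hcn
      (((pdel (m i)).add hcn (pdel (m j))).smul hcn (-(1 / 2)))).add hcn
      ((pabs (m i - m j)).smul hcn (1 / 2))).add hcn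
      ((Pc.sum hcn (R := R) Φ (fun φ _ => pabs φ)).smul hcn (-((k : ℝ) * w)))).add hcn
      (pbad.smul hcn (-((k : ℝ) * w + k ^ 2)))).add hcn (pZ.smul hcn (-((k : ℝ) ^ 2)))
    have hcntW := (hcn N c).2.2.1 _ (fun z => ((c.ord z W).untop₀ : ℤ)) pG.1
      ((ho N c).2.2.2.2.2.1 W hW) (by
        intro z hz
        have := ordc hr ho hw r hF Φ w k m a e he _ hc hW Z hZ0 hZ i j hi hj' z (ext_of_le hz)
        refine le_trans (le_of_eq ?_) this
        ring) R
    rw [pG.2] at hcntW
    have hcZ : 0 ≤ c.cnt (fun z => (Z z : ℤ)) R := by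
      have h6 := (hcn N c).2.2.1 (fun _ => 0) (fun z => (Z z : ℤ)) (Pc.zero (c := c) (R := R)).1 hZf
        (fun z _ => by exact_mod_cast hZ0 z) R
      rwa [(Pc.zero (c := c) (R := R)).2] at h6
    -- Jensen
    have jW := hCW R hR2
    have jF := hCF R hR2
    have jm : ∀ l, |Real.circleAverage (fun z => c.lam z (m l)) 0 R
      - c.cnt (fun z => (c.del z (m l) : ℤ)) R| ≤ Cm l * (1 + Real.log R) := fun l => hCm l n
    have hL : 0 ≤ 1 + Real.log R := by linarith
    have up : ∀ {x C : ℝ}, x ≤ C * (1 + Real.log R) → x ≤ |C| * (1 + Real.log R) := fun {x C} h =>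
      h.trans (mul_le_mul_of_nonneg_right (le_abs_self _) hL)
    have jW' := abs_le.mp (up jW)
    have jF' := abs_le.mp (up jF)
    have jm' := fun l => abs_le.mp (up (jm l))
    have hsum : ∑ l, (Real.circleAverage (fun z => c.lam z (m l)) 0 R +
        a l * Real.circleAverage (fun z => Real.log ‖c.val F z‖) 0 R) -
        ∑ l, (c.cnt (fun z => (c.del z (m l) : ℤ)) R +
          a l * c.cnt (fun z => ((c.ord z F).untop₀ : ℤ)) R) ≤
        (∑ l, (|Cm l| + a l * |CF|)) * (1 + Real.log R) := by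
      rw [← Finset.sum_sub_distrib, Finset.sum_mul]
      apply Finset.sum_le_sum
      intro l _
      have h7 := (jm' l).2
      have h8 := mul_le_mul_of_nonneg_left jF'.2 (Nat.cast_nonneg (α := ℝ) (a l))
      nlinarith
    have hlC0 : Real.log C0 ≤ |Real.log C0| * (1 + Real.log R) := by
      have := le_abs_self (Real.log C0)
      have := abs_nonneg (Real.log C0)
      nlinarith
    have hht : ∀ m', c.ht m' R = Real.circleAverage (fun z => |c.lam z m'|) 0 R +
        c.cnt (fun z => (|c.del z m'| : ℤ)) R := fun m' => rfl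
    simp only [hht, Finset.sum_add_distrib]
    have hkw : (0 : ℝ) ≤ k * w * c.cnt (fun z => (Z z : ℤ)) R := by positivity
    have hCexp : C' * (1 + Real.log R) = |Real.log C0| * (1 + Real.log R) +
        |CW| * (1 + Real.log R) + (∑ l, (|Cm l| + a l * |CF|)) * (1 + Real.log R) +
        (1 / 2) * (|Cm i| * (1 + Real.log R) + |Cm j| * (1 + Real.log R)) := by
      rw [hC']; ring
    have h9 := (jm' i).1
    have h10 := (jm' j).1
    have h11 := jW'.1
    linarith
  -- passage to the limit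
  intro δ hδ
  set A : ℝ := 2 * (k * w + k ^ 2) + 4 * C' + 1 with hA
  have hA0 : 0 < A := by positivity
  have hδ' : 0 < δ / A := by positivity
  have hlim := (Real.tendsto_log_atTop.comp r.lim).eventually_ge_atTop 1
  filter_upwards [r.small (δ / A) hδ', hlim] with n h1 h2
  have h3 := key n
  simp only [Function.comp] at h2
  have h4 : 2 * (k * w + k ^ 2) * Real.log (1 / r.e n) + 2 * C' * (1 + Real.log (r.s n)) ≤
      δ * c.ch (r.s n) := by
    have h5 : 1 + Real.log (r.s n) ≤ 2 * (δ / A * c.ch (r.s n)) := by linarith [h1.1]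
    have h6 : 0 ≤ δ / A * c.ch (r.s n) := by linarith [h1.1]
    have h7 : 2 * (k * w + k ^ 2) * Real.log (1 / r.e n) ≤
        2 * (k * w + k ^ 2) * (δ / A * c.ch (r.s n)) :=
      mul_le_mul_of_nonneg_left h1.2 (by positivity)
    have h8 : 2 * C' * (1 + Real.log (r.s n)) ≤ 2 * C' * (2 * (δ / A * c.ch (r.s n))) :=
      mul_le_mul_of_nonneg_left h5 (by positivity)
    have h9 : A * (δ / A * c.ch (r.s n)) = δ * c.ch (r.s n) := by
      field_simp
    rw [← h9, hA]
    nlinarith
  linarith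

end Pool.Agent.Y141.OG
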