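import Pool.Agent.Y192.OG.StB

set_option autoImplicit false

namespace Pool.Agent.Y141.OG

open Filter Metric Set Topology Pool.Agent.W603.BP Pool.Agent.Y192.OG

/-- omitting one of `k + 1` functions with sum zero -/
theorem det_omit {R : Type} [CommRing R] [IsDomain R] {k : ℕ} (v : Fin k → Fin (k + 1) → R)
    (hv : ∀ l, ∑ j, v l j = 0) (a : Fin (k + 1)) :
    (Matrix.of fun l i : Fin k => v l (a.succAbove i)).det =
      (-1) ^ (a : ℕ) * (Matrix.of fun l i : Fin k => v l i.succ).det := by
  by_cases ha : a = 0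
  · subst ha
    simp
  · let x : Fin (k + 1) → R := fun j => if j = 0 then -1 else if j = a then 1 else 0
    let M : Matrix (Fin (k + 1)) (Fin (k + 1)) R := Matrix.of (Fin.cons x v)
    have hM0 : M.det = 0 := by
      rw [← Matrix.exists_mulVec_eq_zero_iff]
      refine ⟨fun _ => 1, ?_, ?_⟩
      · intro h
        exact one_ne_zero (congrFun h 0)
      · funext l
        refine Fin.cases ?_ (fun l => ?_) l
        · simp only [M, Matrix.mulVec, dotProduct, Matrix.of_apply, Fin.cons_zero, mul_one,
            Pi.zero_apply]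
          rw [Fin.sum_univ_succ]
          have h1 : ∀ i : Fin k, x i.succ = if i.succ = a then 1 else 0 := fun i => by
            simp [x, Fin.succ_ne_zero]
          simp only [h1]
          obtain ⟨b, rfl⟩ := Fin.exists_succ_eq.mpr ha
          simp [x]
        · simp only [M, Matrix.mulVec, dotProduct, Matrix.of_apply, Fin.cons_succ, mul_one,
            Pi.zero_apply]
          exact hv l
    rw [Matrix.det_succ_row_zero] at hM0
    have hsub : ∀ j : Fin (k + 1), M.submatrix Fin.succ j.succAbove =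
        Matrix.of fun l i : Fin k => v l (j.succAbove i) := by
      intro j
      ext l i
      simp [M]
    have hrow : ∀ j, M 0 j = x j := fun j => by simp [M]
    simp only [hsub, hrow] at hM0
    rw [Fin.sum_univ_succ] at hM0
    obtain ⟨b, hb⟩ := Fin.exists_succ_eq.mpr ha
    have h1 : ∀ i : Fin k, x i.succ = if i = b then 1 else 0 := fun i => by
      simp [x, Fin.succ_ne_zero, ← hb]
    simp only [h1] at hM0
    simp only [mul_ite, mul_one, mul_zero, ite_mul, zero_mul, Finset.sum_ite_eq', Finset.mem_univ,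
      if_true] at hM0
    rw [hb] at hM0
    have hx0 : x 0 = -1 := by simp [x]
    rw [hx0] at hM0
    simp only [Fin.val_zero, pow_zero, one_mul, Fin.succAbove_zero] at hM0
    have hsq : ((-1 : R) ^ (a : ℕ)) * (-1) ^ (a : ℕ) = 1 := by
      rw [← mul_pow]; simp
    have h2 : (-1 : R) ^ (a : ℕ) * (Matrix.of fun l i : Fin k => v l (a.succAbove i)).det =
        (Matrix.of fun l i : Fin k => v l i.succ).det := by
      linear_combination hM0
    rw [← h2, ← mul_assoc, hsq, one_mul]

theorem det_omit' {R : Type} [CommRing R] [IsDomain R] {k : ℕ} (v : Fin k → Fin (k + 1) → R)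
    (hv : ∀ l, ∑ j, v l j = 0) (a : Fin (k + 1)) :
    (Matrix.of fun l i : Fin k => v l (a.succAbove i)).det =
      (Matrix.of fun l i : Fin k => v l i.succ).det ∨
    (Matrix.of fun l i : Fin k => v l i.succ).det +
      (Matrix.of fun l i : Fin k => v l (a.succAbove i)).det = 0 := by
  rw [det_omit v hv a]
  rcases Nat.even_or_odd (a : ℕ) with hp | hp
  · left; rw [hp.neg_one_pow, one_mul]
  · right; rw [hp.neg_one_pow]; ring

variable {N : ℕ} (c : Curve N)

theorem iter_add (l : ℕ) (f g : c.Mr) :
    (c.Dr : c.Mr → c.Mr)^[l] (f + g) = (c.Dr : c.Mr → c.Mr)^[l] f + (c.Dr : c.Mr → c.Mr)^[l] g := by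
  induction l generalizing f g with
  | zero => rfl
  | succ l ih => rw [Function.iterate_succ_apply, map_add, ih]; rfl

theorem iter_zero (l : ℕ) : (c.Dr : c.Mr → c.Mr)^[l] 0 = 0 := by
  induction l with
  | zero => rfl
  | succ l ih => rw [Function.iterate_succ_apply, map_zero, ih]

theorem iter_sum (l : ℕ) {ι : Type} (s : Finset ι) (f : ι → c.Mr) :
    (c.Dr : c.Mr → c.Mr)^[l] (∑ i ∈ s, f i) = ∑ i ∈ s, (c.Dr : c.Mr → c.Mr)^[l] (f i) := by
  classical
  induction s using Finset.induction_on with
  | empty => simp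
  | insert a s ha ih => rw [Finset.sum_insert ha, Finset.sum_insert ha, iter_add, ih]

theorem wrd_omit (hdom : IsDomain c.Mr) {k : ℕ} (e : Fin (k + 1) → c.Mr) (he : ∑ i, e i = 0)
    (a : Fin (k + 1)) :
    ∃ x : ℂ, ‖x‖ = 1 ∧ c.wrd (fun i : Fin k => e i.succ) = x • c.wrd (fun i => e (a.succAbove i)) := by
  have h := det_omit' (fun (l : Fin k) j => (c.Dr : c.Mr → c.Mr)^[(l : ℕ)] (e j))
    (fun l => by rw [← iter_sum, he, iter_zero]) a
  have h1 : ∀ g : Fin k → c.Mr, c.wrd g =
      (Matrix.of fun l b : Fin k => (c.Dr : c.Mr → c.Mr)^[(l : ℕ)] (g b)).det := by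
    intro g
    unfold Curve.wrd
    rw [← Matrix.det_transpose]
    rfl
  rw [← h1, ← h1] at h
  rcases h with h | h
  · exact ⟨1, by simp, by rw [one_smul, h]⟩
  · refine ⟨-1, by simp, ?_⟩
    rw [neg_smul, one_smul]
    exact eq_neg_of_add_eq_zero_left h

end Pool.Agent.Y141.OG
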