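import Pool.Agent.Y141.OG.Cl1

set_option autoImplicit false

namespace Pool.Agent.Y141.OG

open Filter Metric Set Topology Pool.Agent.W603.BP Pool.Agent.Y192.OG

variable {N : ℕ} {c : Curve N} {F : c.Mr}

theorem dom_of (hr : St_ring) (c : Curve N) : IsDomain c.Mr := by
  obtain ⟨h1, h2, -, -⟩ := hr N c
  have : Nontrivial c.Mr := h2
  have h3 : NoZeroDivisors c.Mr := ⟨fun {a b} h => h1 a b h⟩
  exact NoZeroDivisors.to_isDomain _

/-- size on the circle -/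
theorem circ (hdom : IsDomain c.Mr) (hw : St_wr) (r : Rad c F) (Φ : Finset (Fin N → ℤ)) (w k : ℕ)
    (e : Fin (k + 1) → c.Mr) (he : ∑ i, e i = 0) (lm : Fin (k + 1) → ℂ → ℝ)
    (nu : Fin (k + 1) → ℂ → ℤ) (hc : ∀ i, Ctl r (e i) (lm i) (nu i) Φ w) :
    ∃ C : ℝ, 0 < C ∧ ∀ n z, ‖z‖ = r.s n → ∀ a,
      ‖c.val (c.wrd (fun i : Fin k => e i.succ)) z‖ ≤
        C * Real.exp (∑ i, lm i z - lm a z + k * w * ∑ φ ∈ Φ, |c.lam z φ|) *
          (1 / r.e n) ^ (k * w + k ^ 2) := by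
  have h1 : ∀ a : Fin (k + 1), ∃ C : ℝ, 0 < C ∧ ∀ n z, ‖z‖ = r.s n →
      ‖c.val (c.wrd (fun i : Fin k => e (a.succAbove i))) z‖ ≤
        C * Real.exp (∑ i : Fin k, lm (a.succAbove i) z + k * w * ∑ φ ∈ Φ, |c.lam z φ|) *
          (1 / r.e n) ^ (k * w + k ^ 2) := fun a =>
    (hw N c F r k (fun i => e (a.succAbove i))).2.2.2 Φ w (fun i => lm (a.succAbove i))
      (fun i => nu (a.succAbove i)) (fun i => hc _)
  choose C hC0 hC using h1
  refine ⟨∑ a, C a, Finset.sum_pos (fun a _ => hC0 a) Finset.univ_nonempty, ?_⟩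
  intro n z hz a
  obtain ⟨x, hx, hx'⟩ := wrd_omit c hdom e he a
  rw [hx', c.val_smul, norm_mul, hx, one_mul]
  have h2 := hC a n z hz
  have h3 : ∑ i : Fin k, lm (a.succAbove i) z = ∑ i, lm i z - lm a z := by
    rw [Fin.sum_univ_succAbove _ a]; ring
  rw [h3] at h2
  refine h2.trans ?_
  have he0 := (r.he n).1
  gcongr
  exact Finset.single_le_sum (fun b _ => (hC0 b).le) (Finset.mem_univ a)

/-- order at a point -/
theorem ordb (hr : St_ring) (ho : St_ord) (hw : St_wr) (r : Rad c F) (Φ : Finset (Fin N → ℤ))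
    (w k : ℕ) (e : Fin (k + 1) → c.Mr) (he : ∑ i, e i = 0) (lm : Fin (k + 1) → ℂ → ℝ)
    (nu : Fin (k + 1) → ℂ → ℤ) (hc : ∀ i, Ctl r (e i) (lm i) (nu i) Φ w)
    (hW : c.wrd (fun i : Fin k => e i.succ) ≠ 0) (z : ℂ) (hz : z ∈ Ext c.r0) (a : Fin (k + 1)) :
    ∑ l, nu l z - nu a z - k * w * (∑ φ ∈ Φ, |c.del z φ| + c.bad z) - (k : ℤ) ^ 2 ≤
      (c.ord z (c.wrd (fun i : Fin k => e i.succ))).untop₀ := by
  obtain ⟨x, hx, hx'⟩ := wrd_omit c (dom_of hr c) e he a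
  have h1 := (hw N c F r k (fun i => e (a.succAbove i))).2.1 z hz
    (fun j => nu (a.succAbove j) z - w * (∑ φ ∈ Φ, |c.del z φ| + c.bad z))
    (fun j => (hc (a.succAbove j)).2 z hz)
  have h2 := (ho N c).1 z hz
  have h3 : c.ord z (c.wrd (fun i => e (a.succAbove i))) ≤
      c.ord z (c.wrd (fun i : Fin k => e i.succ)) := by
    rw [hx']
    exact h2.2.2.1 _ _
  have h4 : c.ord z (c.wrd (fun i : Fin k => e i.succ)) ≠ ⊤ := (hr N c).2.2.2 _ hW z hz
  have h5 := h1.trans h3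
  rw [← WithTop.coe_untop₀_of_ne_top h4, WithTop.coe_le_coe] at h5
  refine le_trans (le_of_eq ?_) h5
  rw [Finset.sum_sub_distrib, Finset.sum_const, Finset.card_univ, Fintype.card_fin,
    Fin.sum_univ_succAbove _ a]
  simp only [nsmul_eq_mul]
  ring

theorem del_sub (z : ℂ) (m m' : Fin N → ℤ) : c.del z (m - m') = c.del z m - c.del z m' := by
  unfold Curve.del
  rw [← Finset.sum_sub_distrib]
  exact Finset.sum_congr rfl fun i _ => by rw [Pi.sub_apply]; ring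

theorem lam_sub (z : ℂ) (m m' : Fin N → ℤ) : c.lam z (m - m') = c.lam z m - c.lam z m' := by
  unfold Curve.lam
  rw [← Finset.sum_sub_distrib]
  exact Finset.sum_congr rfl fun i _ => by rw [Pi.sub_apply]; push_cast; ring

theorem bad_of (z : ℂ) (hz : z ∈ Ext c.r0) (h : z ∉ c.U) : c.bad z = 1 := by
  unfold Curve.bad
  rw [if_pos]
  by_contra hne
  push Not at hne
  exact h ⟨hz, hne⟩

/-- the comparison of orders, in the form which is used -/
theorem ordc (hr : St_ring) (ho : St_ord) (hw : St_wr) (r : Rad c F) (hF : F ≠ 0)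
    (Φ : Finset (Fin N → ℤ))
    (w k : ℕ) (m : Fin (k + 1) → Fin N → ℤ) (a : Fin (k + 1) → ℕ)
    (e : Fin (k + 1) → c.Mr) (he : ∑ i, e i = 0) (lm : Fin (k + 1) → ℂ → ℝ)
    (hc : ∀ i, Ctl r (e i) (lm i) (fun z => c.del z (m i) + a i * (c.ord z F).untop₀) Φ w)
    (hW : c.wrd (fun i : Fin k => e i.succ) ≠ 0) (Z : ℂ → ℤ) (hZ0 : ∀ z, 0 ≤ Z z)
    (hZ : ∀ z ∈ c.U, (∃ i, a i ≠ 0) → c.val F z = 0 → 1 ≤ Z z)
    (i j : Fin (k + 1)) (hi : a i = 0) (hj : a j = 0) (z : ℂ) (hz : z ∈ Ext c.r0) :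
    ∑ l, ((c.del z (m l) : ℝ) + a l * ((c.ord z F).untop₀ : ℤ))
      - (1 / 2) * ((c.del z (m i) : ℝ) + c.del z (m j))
      + (1 / 2) * ((|c.del z (m i - m j)| : ℤ) : ℝ)
      - k * w * ∑ φ ∈ Φ, ((|c.del z φ| : ℤ) : ℝ) - (k * w + k ^ 2) * (c.bad z : ℝ)
      - k ^ 2 * (Z z : ℝ) ≤ ((c.ord z (c.wrd (fun i : Fin k => e i.succ))).untop₀ : ℤ) := by
  have hb := ordb hr ho hw r Φ w k e he lm _ hc hW z hz
  have hZr : (0 : ℝ) ≤ Z z := by exact_mod_cast hZ0 z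
  have hb' : ∀ b, ∑ l, ((c.del z (m l) : ℝ) + a l * ((c.ord z F).untop₀ : ℤ)) -
      ((c.del z (m b) : ℝ) + a b * ((c.ord z F).untop₀ : ℤ)) -
      k * w * (∑ φ ∈ Φ, ((|c.del z φ| : ℤ) : ℝ) + c.bad z) - (k : ℝ) ^ 2 ≤
      ((c.ord z (c.wrd (fun i : Fin k => e i.succ))).untop₀ : ℤ) := by
    intro b
    have := hb b
    have h : ((∑ l, (c.del z (m l) + (a l : ℤ) * (c.ord z F).untop₀) -
      (c.del z (m b) + (a b : ℤ) * (c.ord z F).untop₀) -
      k * w * (∑ φ ∈ Φ, |c.del z φ| + c.bad z) - (k : ℤ) ^ 2 : ℤ) : ℝ) ≤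
      ((c.ord z (c.wrd (fun i : Fin k => e i.succ))).untop₀ : ℤ) := by
      exact_mod_cast this
    refine le_trans (le_of_eq ?_) h
    push_cast
    rfl
  by_cases hU : z ∈ c.U
  · have hd : ∀ m', c.del z m' = 0 := (ho N c).2.1 z hU
    have hbad : c.bad z = 0 := (ho N c).2.2.1 z hU
    have hW0 : 0 ≤ c.ord z (c.wrd (fun i : Fin k => e i.succ)) := ((ho N c).1 z hz).2.2.2.1 hU _
    have hW1 : (0 : ℝ) ≤ ((c.ord z (c.wrd (fun i : Fin k => e i.succ))).untop₀ : ℤ) := by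
      have h4 : c.ord z (c.wrd (fun i : Fin k => e i.succ)) ≠ ⊤ := (hr N c).2.2.2 _ hW z hz
      rw [← WithTop.coe_untop₀_of_ne_top h4] at hW0
      have : (0 : ℤ) ≤ (c.ord z (c.wrd (fun i : Fin k => e i.succ))).untop₀ := by
        exact_mod_cast hW0
      exact_mod_cast this
    by_cases hcase : (∃ i, a i ≠ 0) ∧ c.val F z = 0
    · have hZ1 : (1 : ℝ) ≤ Z z := by exact_mod_cast hZ z hU hcase.1 hcase.2
      have := hb' i
      simp only [hd, hbad, hi, Int.cast_zero, abs_zero, Finset.sum_const_zero, mul_zero, add_zero,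
        sub_zero, Nat.cast_zero, zero_mul, zero_add] at this ⊢
      nlinarith [sq_nonneg (k : ℝ)]
    · have hν : ∑ l, ((c.del z (m l) : ℝ) + a l * ((c.ord z F).untop₀ : ℤ)) = 0 := by
        apply Finset.sum_eq_zero
        intro l _
        rw [hd, Int.cast_zero, zero_add]
        by_cases hal : a l = 0
        · rw [hal]; simp
        · have hne : c.val F z ≠ 0 := fun h => hcase ⟨⟨l, hal⟩, h⟩
          have h5 : c.ord z F = 0 := by
            have h6 := (c.val_an F z hU)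
            unfold Curve.ord
            rw [h6.meromorphicOrderAt_eq, h6.analyticOrderAt_eq_zero.mpr hne]
            rfl
          rw [h5]; simp
      rw [hν]
      simp only [hd, hbad, Int.cast_zero, abs_zero, Finset.sum_const_zero, mul_zero, add_zero,
        sub_zero]
      nlinarith [sq_nonneg (k : ℝ)]
  · have hbad : c.bad z = 1 := bad_of z hz hU
    have h1 := hb' i
    have h2 := hb' j
    rw [hi] at h1
    rw [hj] at h2
    rw [hbad] at h1 h2 ⊢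
    rw [del_sub]
    have h3 : (0 : ℝ) ≤ (k : ℝ) ^ 2 * Z z := mul_nonneg (sq_nonneg _) hZr
    push_cast at h1 h2 h3 ⊢
    rcases abs_cases ((c.del z (m i) : ℝ) - c.del z (m j)) with h | h
    · rw [h.1]; linarith
    · rw [h.1]; linarith

end Pool.Agent.Y141.OG
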