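import Pool.Agent.Y141.OG.Cl2

set_option autoImplicit false

namespace Pool.Agent.Y141.OG

open Filter Metric Set Topology Pool.Agent.W603.BP Pool.Agent.Y192.OG

variable {N : ℕ} {c : Curve N} {F : c.Mr}

/-- functions with a given mean on a circle -/
def Qm (R : ℝ) (f : ℂ → ℝ) (v : ℝ) : Prop :=
  CircleIntegrable f 0 R ∧ Real.circleAverage f 0 R = v

theorem Qm.add {R : ℝ} {f g : ℂ → ℝ} {v w : ℝ} (hf : Qm R f v) (hg : Qm R g w) :
    Qm R (fun z => f z + g z) (v + w) :=
  ⟨hf.1.add hg.1, by rw [Real.circleAverage_fun_add hf.1 hg.1, hf.2, hg.2]⟩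

theorem Qm.smul {R : ℝ} {f : ℂ → ℝ} {v : ℝ} (a : ℝ) (hf : Qm R f v) :
    Qm R (fun z => a * f z) (a * v) := by
  refine ⟨?_, ?_⟩
  · exact hf.1.const_smul (a := a)
  · have := Real.circleAverage_fun_smul (a := a) (f := f) (c := 0) (R := R)
    simp only [smul_eq_mul] at this
    rw [this, hf.2]

theorem Qm.const {R : ℝ} (a : ℝ) : Qm R (fun _ => a) a :=
  ⟨circleIntegrable_const _ _ _, Real.circleAverage_const _ _ _⟩

theorem Qm.sum {R : ℝ} {ι : Type} (s : Finset ι) {f : ι → ℂ → ℝ} {v : ι → ℝ}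
    (h : ∀ i ∈ s, Qm R (f i) (v i)) : Qm R (fun z => ∑ i ∈ s, f i z) (∑ i ∈ s, v i) := by
  classical
  induction s using Finset.induction_on with
  | empty => simpa using Qm.const (R := R) 0
  | insert a s ha ih =>
    simp only [Finset.sum_insert ha]
    exact (h a (Finset.mem_insert_self _ _)).add
      (ih fun i hi => h i (Finset.mem_insert_of_mem hi))

theorem Qm.abs {R : ℝ} {f : ℂ → ℝ} (h : CircleIntegrable f 0 R) :
    Qm R (fun z => |f z|) (Real.circleAverage (fun z => |f z|) 0 R) :=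
  ⟨h.abs, rfl⟩

/-- divisors with a given counting function -/
def Pc (c : Curve N) (R : ℝ) (E : ℂ → ℝ) (v : ℝ) : Prop := c.LocFin E ∧ c.cnt E R = v

theorem Pc.add (h : St_cnt) {R : ℝ} {f g : ℂ → ℝ} {v w : ℝ} (hf : Pc c R f v) (hg : Pc c R g w) :
    Pc c R (fun z => f z + g z) (v + w) := by
  obtain ⟨h1, h2⟩ := (h N c).1 f g hf.1 hg.1
  exact ⟨h1, by rw [h2, hf.2, hg.2]⟩

theorem Pc.smul (h : St_cnt) {R : ℝ} {f : ℂ → ℝ} {v : ℝ} (a : ℝ) (hf : Pc c R f v) :
    Pc c R (fun z => a * f z) (a * v) := by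
  obtain ⟨h1, h2⟩ := (h N c).2.1 a f hf.1
  exact ⟨h1, by rw [h2, hf.2]⟩

theorem Pc.zero {R : ℝ} : Pc c R (fun _ => 0) 0 := by
  refine ⟨fun R => by simp, ?_⟩
  unfold Curve.cnt
  simp

theorem Pc.sum (h : St_cnt) {R : ℝ} {ι : Type} (s : Finset ι) {f : ι → ℂ → ℝ} {v : ι → ℝ}
    (hf : ∀ i ∈ s, Pc c R (f i) (v i)) : Pc c R (fun z => ∑ i ∈ s, f i z) (∑ i ∈ s, v i) := by
  classical
  induction s using Finset.induction_on with
  | empty => simpa using Pc.zero (c := c) (R := R)
  | insert a s ha ih =>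
    simp only [Finset.sum_insert ha]
    exact (hf a (Finset.mem_insert_self _ _)).add h
      (ih fun i hi => hf i (Finset.mem_insert_of_mem hi))

theorem cnt_congr {R : ℝ} {E E' : ℂ → ℝ} (h : ∀ z, c.r0 + 1 ≤ ‖z‖ → E z = E' z) :
    c.cnt E R = c.cnt E' R := by
  unfold Curve.cnt
  exact finsum_mem_congr rfl fun z hz => by rw [h z hz.1]

theorem ext_of_le {z : ℂ} (h : c.r0 + 1 ≤ ‖z‖) : z ∈ Ext c.r0 := by
  have : c.r0 < ‖z‖ := by linarith
  simpa [Pool.Agent.W603.BP.Ext] using this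

theorem mon_ne (hr : St_ring) (m : Fin N → ℤ) : c.mon m ≠ 0 := by
  have := dom_of hr c
  exact (c.monu m).ne_zero

/-- Jensen's formula for monomials on the good circles -/
theorem jen_mon (hr : St_ring) (ho : St_ord) (hj : St_jen) (r : Rad c F) (m : Fin N → ℤ) :
    ∃ C : ℝ, ∀ n, |Real.circleAverage (fun z => c.lam z m) 0 (r.s n)
      - c.cnt (fun z => (c.del z m : ℤ)) (r.s n)| ≤ C * (1 + Real.log (r.s n)) := by
  obtain ⟨C, hC⟩ := hj N c (c.mon m) (mon_ne hr m)
  refine ⟨C, fun n => ?_⟩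
  have h := hC (r.s n) (r.hs n)
  have hpos : 0 < r.s n := by
    have := r.hs n
    have := c.hr0
    linarith
  have h1 : Real.circleAverage (fun z => Real.log ‖c.val (c.mon m) z‖) 0 (r.s n) =
      Real.circleAverage (fun z => c.lam z m) 0 (r.s n) := by
    apply Real.circleAverage_congr_sphere
    intro z hz
    have hz' : ‖z‖ = r.s n := by
      simpa [abs_of_pos hpos] using hz
    have hU : z ∈ c.U := r.ne n z hz' z (mem_closedBall_self (r.he n).1.le)
    simp only
    rw [(ho N c).2.2.2.1 z hU m, Real.log_exp]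
  have h2 : c.cnt (fun z => ((c.ord z (c.mon m)).untop₀ : ℤ)) (r.s n) =
      c.cnt (fun z => (c.del z m : ℤ)) (r.s n) := by
    apply cnt_congr
    intro z hz
    rw [((ho N c).1 z (ext_of_le hz)).2.2.2.2.2 m]
    simp
  rw [h1, h2] at h
  exact h

/-- comparison of means when the smaller function is the logarithm of a modulus -/
theorem mean_le (hr : St_ring) (hh : St_ht) (r : Rad c F) {W : c.Mr} (hW : W ≠ 0) (n : ℕ)
    {G : ℂ → ℝ} {v : ℝ} (hG : Qm (r.s n) G v)
    (hle : ∀ z, ‖z‖ = r.s n → c.val W z ≠ 0 → Real.log ‖c.val W z‖ ≤ G z) :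
    Real.circleAverage (fun z => Real.log ‖c.val W z‖) 0 (r.s n) ≤ v := by
  classical
  have hpos : 0 < r.s n := by
    have := r.hs n
    have := c.hr0
    linarith
  have hint : CircleIntegrable (fun z => Real.log ‖c.val W z‖) 0 (r.s n) :=
    ((hh N c).1 (r.s n) (r.hs n)).2.2.2.2.2.2 W
  let f : ℂ → ℝ := fun z => if c.val W z = 0 then G z else Real.log ‖c.val W z‖
  have hco : (fun z => Real.log ‖c.val W z‖) =ᶠ[codiscreteWithin (sphere 0 |r.s n|)] f := by
    rw [Filter.EventuallyEq, Filter.Eventually, mem_codiscreteWithin]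
    intro z hz
    have hz' : ‖z‖ = r.s n := by
      simpa [abs_of_pos hpos] using hz
    have hU : z ∈ c.U := r.ne n z hz' z (mem_closedBall_self (r.he n).1.le)
    have hord : c.ord z W ≠ ⊤ := (hr N c).2.2.2 W hW z hU.1
    have hne : ∀ᶠ y in 𝓝[≠] z, c.val W y ≠ 0 := by
      rcases (c.val_an W z hU).eventually_eq_zero_or_eventually_ne_zero with h | h
      · exfalso
        apply hord
        unfold Curve.ord
        rw [meromorphicOrderAt_eq_top_iff]
        exact h.filter_mono nhdsWithin_le_nhds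
      · exact h
    rw [disjoint_principal_right]
    filter_upwards [hne] with y hy
    simp only [mem_compl_iff, Set.mem_sdiff, not_and, not_not]
    intro _
    simp [f, hy]
  have hint' : CircleIntegrable f 0 (r.s n) := hint.congr_codiscreteWithin hco
  rw [Real.circleAverage_congr_codiscreteWithin hco hpos.ne', ← hG.2]
  apply Real.circleAverage_mono hint' hG.1
  intro z hz
  have hz' : ‖z‖ = r.s n := by
    simpa [abs_of_pos hpos] using hz
  simp only [f]
  split_ifs with h0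
  · exact le_refl _
  · exact hle z hz' h0

end Pool.Agent.Y141.OG
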