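import Mathlib

/-! The squarefree part of a polynomial over a field, up to the variables. -/

set_option autoImplicit false

namespace Pool.Agent.Y141.OG

open MvPolynomial

theorem sqp (k : Type) [Field k] (b : ℕ) (A : MvPolynomial (Fin b) k) (hA : A ≠ 0) :
    ∃ (f : MvPolynomial (Fin b) k) (M : ℕ), f ≠ 0 ∧ Squarefree f ∧
      (∀ i, ¬ (MvPolynomial.X i ∣ f)) ∧ f ∣ A ∧ A ∣ (f * ∏ i, MvPolynomial.X i) ^ M := by
  revert hA
  induction A using UniqueFactorizationMonoid.induction_on_prime with
  | h₁ => exact fun h => absurd rfl h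
  | h₂ x hx =>
    intro _
    refine ⟨1, 0, one_ne_zero, squarefree_one, fun i h => ?_, one_dvd _, ?_⟩
    · exact (MvPolynomial.X_prime (R := k) (i := i)).not_unit (isUnit_iff_dvd_one.2 h)
    · rw [pow_zero]
      exact hx.dvd
  | h₃ a p ha hp ih =>
    intro _
    obtain ⟨f, M, h1, h2, h3, h4, h5⟩ := ih ha
    have hpf : p ∣ f * ∏ i, MvPolynomial.X i ∨ ¬ (p ∣ f) ∧ ∀ i, ¬ (MvPolynomial.X i ∣ p) := by
      by_cases hf : p ∣ f
      · exact Or.inl (hf.mul_right _)
      · by_cases hX : ∃ i, (MvPolynomial.X i : MvPolynomial (Fin b) k) ∣ p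
        · obtain ⟨i, hi⟩ := hX
          have h6 : Associated (MvPolynomial.X i : MvPolynomial (Fin b) k) p :=
            (MvPolynomial.X_prime (R := k) (i := i)).irreducible.associated_of_dvd
              hp.irreducible hi
          exact Or.inl ((h6.symm.dvd.trans
            (Finset.dvd_prod_of_mem _ (Finset.mem_univ i))).mul_left _)
        · exact Or.inr ⟨hf, fun i hi => hX ⟨i, hi⟩⟩
    rcases hpf with h6 | ⟨h6, h7⟩
    · refine ⟨f, M + 1, h1, h2, h3, h4.mul_left _, ?_⟩
      rw [pow_succ, mul_comm p a]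
      exact mul_dvd_mul h5 h6
    · refine ⟨p * f, M + 1, mul_ne_zero hp.ne_zero h1, ?_, fun i hi => ?_,
        mul_dvd_mul_left p h4, ?_⟩
      · rw [squarefree_mul_iff]
        exact ⟨(hp.irreducible.isRelPrime_iff_not_dvd).2 h6, hp.irreducible.squarefree, h2⟩
      · rcases (MvPolynomial.X_prime (R := k) (i := i)).dvd_or_dvd hi with h | h
        · exact h7 i h
        · exact h3 i h
      · rw [pow_succ, mul_comm p a]
        refine mul_dvd_mul (h5.trans (pow_dvd_pow_of_dvd ?_ M)) ?_
        · rw [mul_assoc]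
          exact dvd_mul_left _ _
        · rw [mul_assoc]
          exact dvd_mul_right _ _

end Pool.Agent.Y141.OG
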