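import Pool.Agent.Y192.OG.StG
import Pool.Agent.Y141.OG.SqpA

/-! The squarefree part of a polynomial over a field, up to the variables. -/

set_option autoImplicit false

namespace Pool.Agent.Y141.OG

theorem t_sqp : Pool.Agent.Y192.OG.St_sqp := by
  intro k _ b A hA
  exact sqp k b A hA

end Pool.Agent.Y141.OG
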